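import Pool.Agent.H135R2.Rigid.Transfer

set_option autoImplicit false

namespace Pool.Agent.Results.MP_3dba9c_co.GloballyLinkedComponents

open Pool.Agent.H135R2.Planar

/-- If the pair `{x, y}` is globally linked in the (finite, simple) graph `G` in the plane, then
some redundantly rigid component of `G` contains both `x` and `y`. -/
theorem result {V : Type*} [Fintype V] [DecidableEq V] (G : SimpleGraph V) (x y : V)
    (hxy : x ≠ y) (h : GloballyLinked G x y) :
    ∃ R : G.Subgraph, IsRedundantlyRigidComponent G R ∧ x ∈ R.verts ∧ y ∈ R.verts :=
  Pool.Agent.H135R2.Rigid.main G hxy h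

end Pool.Agent.Results.MP_3dba9c_co.GloballyLinkedComponents
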